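import Pool.Agent.Helper72.NI.Tools
import Pool.Agent.Helper72.NI.RedConst

/-!
# Reduction of a linear system
-/

set_option autoImplicit false

namespace Pool.Agent.Helper74.NI

open MvPolynomial
open Pool.Agent.Helper72.NI

/-- LIN-b. -/
theorem lin_reduce {E : Type} [Field E] [CharZero E] {Γ : Type}
    [LinearOrderedCommGroupWithZero Γ] {v : Valuation E Γ} {k K Ω : Subfield E} {t : E}
    {N d : ℕ} {f φ : Fin (N + 1) → MvPolynomial (Fin (N + 1)) E} (c : Ctx v k K Ω t d f φ)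
    {x y : Fin (N + 1) → E} {i₀ : Fin (N + 1)} (hpt : Pt v Ω x y i₀) (hgy : Gen K y) {a : ℕ}
    {F : Fin (N + 1) → MvPolynomial (Fin (N + 1)) E} (hF : ∀ i, (F i).IsHomogeneous a)
    (hFK : ∀ i m, (F i).coeff m ∈ K) {b : E} (hb : b ≠ 0) (hFx : ∀ i, eval y (F i) = b * x i) :
    ∃ (s : E) (e : ℕ) (C₀ : MvPolynomial (Fin (N + 1)) E), s ∈ K ∧ s ≠ 0 ∧ e + 1 = a ∧
      C₀ ≠ 0 ∧ C₀.IsHomogeneous e ∧ (∀ m, C₀.coeff m ∈ k) ∧
      ∀ i m, Cg v (s * (F i).coeff m) ((C₀ * X i).coeff m) := by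
  classical
  -- a coefficient of maximal valuation
  set T : Finset (Σ _ : Fin (N + 1), Fin (N + 1) →₀ ℕ) :=
    Finset.univ.sigma fun i => (F i).support with hT
  have hFi₀ : F i₀ ≠ 0 := by
    intro h
    have h1 := hFx i₀
    rw [h, map_zero, hpt.x1, mul_one] at h1
    exact hb h1.symm
  have hTne : T.Nonempty := by
    obtain ⟨m, hm⟩ := support_nonempty.2 hFi₀
    exact ⟨⟨i₀, m⟩, Finset.mem_sigma.2 ⟨Finset.mem_univ _, hm⟩⟩
  obtain ⟨⟨i₁, m₁⟩, hT1, hmax⟩ := Finset.exists_max_image T (fun p => v ((F p.1).coeff p.2)) hTne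
  have hm₁ : m₁ ∈ (F i₁).support := (Finset.mem_sigma.1 hT1).2
  set a₁ := (F i₁).coeff m₁ with ha₁
  have ha₁0 : a₁ ≠ 0 := mem_support_iff.1 hm₁
  set s := a₁⁻¹ with hs
  have hs0 : s ≠ 0 := inv_ne_zero ha₁0
  have hsK : s ∈ K := inv_mem (hFK i₁ m₁)
  have hint : ∀ i m, v (s * (F i).coeff m) ≤ 1 := by
    intro i m
    by_cases h : m ∈ (F i).support
    · have h1 : v ((F i).coeff m) ≤ v a₁ :=
        hmax ⟨i, m⟩ (Finset.mem_sigma.2 ⟨Finset.mem_univ _, h⟩)
      have h2 : v a₁ ≠ 0 := (Valuation.ne_zero_iff _).2 ha₁0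
      rw [map_mul, hs, map_inv₀]
      calc (v a₁)⁻¹ * v ((F i).coeff m) ≤ (v a₁)⁻¹ * v a₁ := mul_le_mul' le_rfl h1
        _ = 1 := inv_mul_cancel₀ h2
    · rw [notMem_support_iff.1 h, mul_zero, map_zero]
      exact zero_le
  -- residues
  have hresx : ∀ i m, ∃ g ∈ k, v (s * (F i).coeff m - g) < 1 := fun i m =>
    c.resK _ (mul_mem hsK (hFK i m)) (hint i m)
  choose g hgk hg using hresx
  let G : Fin (N + 1) → MvPolynomial (Fin (N + 1)) E := fun i =>
    ∑ m ∈ (F i).support, monomial m (g i m)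
  have hGc : ∀ i m, (G i).coeff m = if m ∈ (F i).support then g i m else 0 := by
    intro i m
    change coeff m (∑ m' ∈ (F i).support, monomial m' (g i m')) = _
    rw [coeff_sum]
    simp only [coeff_monomial]
    rw [Finset.sum_ite_eq' (F i).support m (g i)]
  have hGk : ∀ i m, (G i).coeff m ∈ k := by
    intro i m
    rw [hGc]
    split_ifs
    · exact hgk i m
    · exact zero_mem _
  have hGcg : ∀ i m, Cg v (s * (F i).coeff m) ((G i).coeff m) := by
    intro i m
    rw [hGc]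
    split_ifs with h
    · exact ⟨hint i m, c.valΩ _ (c.kΩ (hgk i m)), hg i m⟩
    · rw [notMem_support_iff.1 h, mul_zero]
      exact Cg.refl (by rw [map_zero]; exact zero_le)
  have hGhom : ∀ i, (G i).IsHomogeneous a := by
    intro i m hm
    rw [hGc] at hm
    split_ifs at hm with h
    · exact hF i (mem_support_iff.1 h)
    · exact absurd rfl hm
  have hyc : ∀ i, Cg v (y i) (y i) := fun i => Cg.refl (c.valΩ _ (hpt.mem i))
  have hev : ∀ i, Cg v (s * (b * x i)) (eval y (G i)) := by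
    intro i
    have h1 : eval y (C s * F i) = s * (b * x i) := by
      rw [map_mul, eval_C, hFx]
    rw [← h1]
    exact Cg.eval (fun m => by rw [coeff_C_mul]; exact hGcg i m) hyc
  have hGΩ : ∀ i, eval y (G i) ∈ Ω := fun i => eval_mem (fun m => c.kΩ (hGk i m)) hpt.mem
  have hxy : ∀ i, Cg v (x i) (y i) := fun i => ⟨hpt.int i, c.valΩ _ (hpt.mem i), hpt.red i⟩
  have hrel : ∀ i j, y j * eval y (G i) = y i * eval y (G j) := by
    intro i j
    have h1 : Cg v (x j * (s * (b * x i))) (y j * eval y (G i)) := (hxy j).mul (hev i)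
    have h2 : Cg v (x i * (s * (b * x j))) (y i * eval y (G j)) := (hxy i).mul (hev j)
    have h3 : x j * (s * (b * x i)) = x i * (s * (b * x j)) := by ring
    rw [h3] at h1
    exact (h1.symm.trans h2).eq c.valΩ (mul_mem (hpt.mem j) (hGΩ i))
      (mul_mem (hpt.mem i) (hGΩ j))
  have hkK : ∀ i m, (G i).coeff m ∈ K := fun i m => c.kK (hGk i m)
  have hform : ∀ i j, X j * G i = X i * G j := by
    intro i j
    by_contra hne
    have h1 : (X j * G i - X i * G j).IsHomogeneous (1 + a) :=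
      ((isHomogeneous_X _ j).mul (hGhom i)).sub ((isHomogeneous_X _ i).mul (hGhom j))
    have hco : ∀ (i j : Fin (N + 1)) m, (X j * G i).coeff m ∈ K := by
      intro i j m
      rw [mul_comm, coeff_mul_X']
      split_ifs
      · exact hkK _ _
      · exact zero_mem _
    have h2 := hgy (1 + a) (X j * G i - X i * G j) h1 (fun m => by
      rw [coeff_sub]
      exact sub_mem (hco i j m) (hco j i m)) (sub_ne_zero.2 hne)
    apply h2
    rw [map_sub, map_mul, map_mul, eval_X, eval_X, hrel i j, sub_self]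
  -- the common factor
  obtain ⟨j₀, hj₀⟩ : ∃ j₀ : Fin (N + 1), j₀ ≠ i₀ := by
    have h1 := c.one_le
    have : Nontrivial (Fin (N + 1)) := Fin.nontrivial_iff_two_le.2 (by omega)
    exact exists_ne i₀
  obtain ⟨C₀, hC₀⟩ : X i₀ ∣ G i₀ := by
    have h1 : X i₀ ∣ X j₀ * G i₀ := ⟨G j₀, hform i₀ j₀⟩
    rcases X_dvd_mul_iff.1 h1 with h2 | h2
    · rw [X_dvd_X] at h2
      exact absurd h2.symm hj₀
    · exact h2
  have hG : ∀ i, G i = C₀ * X i := by
    intro i
    have h1 := hform i₀ i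
    rw [hC₀] at h1
    have h2 : X i₀ * (C₀ * X i) = X i₀ * G i := by
      rw [← h1]
      ring
    exact (mul_left_cancel₀ (X_ne_zero i₀) h2).symm
  have hCc : ∀ m, C₀.coeff m = (G i₀).coeff (m + Finsupp.single i₀ 1) := by
    intro m
    rw [hG i₀, coeff_mul_X]
  have hC0 : C₀ ≠ 0 := by
    intro h
    have h1 : (G i₁).coeff m₁ = 0 := by rw [hG, h, zero_mul, coeff_zero]
    have h2 := hGcg i₁ m₁
    rw [h1, ← ha₁, hs, inv_mul_cancel₀ ha₁0] at h2
    have h3 := h2.lt
    rw [sub_zero, map_one] at h3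
    exact lt_irrefl _ h3
  have hdeg : ∀ m, C₀.coeff m ≠ 0 → m.degree + 1 = a := by
    intro m hm
    rw [hCc] at hm
    have h1 := hGhom i₀ hm
    rw [← h1, Finsupp.weight_apply]
    have h2 : ∀ m' : Fin (N + 1) →₀ ℕ, m'.sum (fun i c => c • (1 : Fin (N + 1) → ℕ) i) =
        m'.degree := by
      intro m'
      rw [Finsupp.degree_apply]
      exact Finset.sum_congr rfl fun i _ => by simp
    rw [h2, map_add]
    simp
  obtain ⟨m₂, hm₂⟩ := ne_zero_iff.1 hC0
  refine ⟨s, a - 1, C₀, hsK, hs0, ?_, hC0, ?_, fun m => ?_, fun i m => ?_⟩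
  · have := hdeg m₂ hm₂
    omega
  · intro m hm
    have h1 := hdeg m hm
    have h2 : Finsupp.weight (1 : Fin (N + 1) → ℕ) m = m.degree := by
      rw [Finsupp.weight_apply, Finsupp.degree_apply]
      exact Finset.sum_congr rfl fun i _ => by simp
    rw [h2]
    omega
  · rw [hCc]
    exact hGk _ _
  · rw [← hG]
    exact hGcg i m

end Pool.Agent.Helper74.NI
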