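import Pool.Agent.Helper72.NI.Acl
import Pool.Agent.Helper29.MF.T06

/-!
# Function fields generated by algebraic functions
-/

set_option autoImplicit false

namespace Pool.Agent.Helper74.NI

open Pool.Agent.Helper72.NI
open Pool.Agent.Helper30.TP (emb_trdeg_le)
open Algebra

variable {E : Type} [Field E] [CharZero E] {κ : Subfield E}

/-- Elements of the relative algebraic closure of `κ` and `t` are algebraic over `κ(t)`. -/
theorem isAlgebraic_adjoin {t c : E} (hc : c ∈ acl (insert t (κ : Set E))) :
    IsAlgebraic (IntermediateField.adjoin κ {t}) c := by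
  rw [mem_acl'] at hc
  have hle : ∀ a : Algebra.adjoin ℤ (insert t (κ : Set E)),
      (a : E) ∈ IntermediateField.adjoin κ {t} := by
    rintro ⟨a, ha⟩
    change a ∈ IntermediateField.adjoin κ {t}
    induction ha using Algebra.adjoin_induction with
    | mem x hx =>
      rcases hx with rfl | hx
      · exact IntermediateField.subset_adjoin κ {x} rfl
      · exact (IntermediateField.adjoin κ {t}).algebraMap_mem ⟨x, hx⟩
    | algebraMap r => exact intCast_mem _ r
    | add x y _ _ hx hy => exact add_mem hx hy
    | mul x y _ _ hx hy => exact mul_mem hx hy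
  exact isAlgebraic_of_map (f := ({ toFun := fun a => ⟨a.1, hle a⟩
                                    map_one' := rfl
                                    map_mul' := fun _ _ => rfl
                                    map_zero' := rfl
                                    map_add' := fun _ _ => rfl } :
    Algebra.adjoin ℤ (insert t (κ : Set E)) →+* IntermediateField.adjoin κ {t}))
    (fun a b hab => Subtype.ext (congrArg (fun c : IntermediateField.adjoin κ {t} => (c : E)) hab))
    (fun _ => rfl) hc

theorem transcendental_of_notMem [IsAlgClosed κ] {t : E} (ht : t ∉ κ) : Transcendental κ t :=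
  fun h => ht (mem_of_isAlgebraic h)

/-- FF: finitely many algebraic functions generate a function field. -/
theorem exists_functionField [IsAlgClosed κ]
    {t : E} (ht : t ∉ κ) {s : Set E} (hs : s.Finite)
    (hsa : ∀ c ∈ s, c ∈ acl (insert t (κ : Set E))) :
    Algebra.EssFiniteType κ (IntermediateField.adjoin κ (insert t s)) ∧
      Algebra.trdeg κ (IntermediateField.adjoin κ (insert t s)) = 1 := by
  have htr : Transcendental κ t := transcendental_of_notMem ht
  set K := IntermediateField.adjoin κ (insert t s) with hK
  refine ⟨IntermediateField.essFiniteType_iff.2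
    (IntermediateField.fg_adjoin_of_finite (hs.insert t)), ?_⟩
  apply le_antisymm
  · set F₁ := IntermediateField.adjoin κ {t} with hF₁
    let A : IntermediateField F₁ E := algebraicClosure F₁ E
    have h1 : Algebra.trdeg κ A ≤ 1 := by
      have hf1 : FaithfulSMul κ F₁ := (faithfulSMul_iff_algebraMap_injective κ F₁).2 (algebraMap κ F₁).injective
      have h2 := trdeg_add_eq κ F₁ (A := A)
      have h3 : Algebra.trdeg F₁ A = 0 := trdeg_eq_zero
      rw [h3, add_zero] at h2
      rw [← h2]
      have h4 := emb_trdeg_le (k := κ) ({t} : Set E)
      rwa [Cardinal.mk_singleton] at h4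
    have hle : K ≤ A.restrictScalars κ := by
      rw [hK, IntermediateField.adjoin_le_iff]
      intro c hc
      change c ∈ A
      rw [mem_algebraicClosure_iff]
      rcases hc with rfl | hc
      · exact isAlgebraic_algebraMap (R := F₁) (A := E)
          (⟨c, IntermediateField.subset_adjoin κ {c} rfl⟩ : F₁)
      · exact isAlgebraic_adjoin (hsa c hc)
    have h5 := trdeg_le_of_injective (IntermediateField.inclusion hle)
      (IntermediateField.inclusion_injective hle)
    exact h5.trans h1
  · rw [Cardinal.one_le_iff_ne_zero, trdeg_ne_zero_iff]
    refine ⟨⟨⟨t, IntermediateField.subset_adjoin κ _ (Set.mem_insert _ _)⟩, ?_⟩⟩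
    intro h
    exact htr (IsAlgebraic.algHom K.val h)

end Pool.Agent.Helper74.NI
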