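import Pool.Agent.Helper74.NI.FF
import Pool.Agent.Helper72.NI.Ctx
import Pool.Agent.Helper29.MF.T46

/-!
# Growth of heights for maps over the constants
-/

set_option autoImplicit false

namespace Pool.Agent.Helper74.NI

open MvPolynomial
open Pool.Agent.Helper72.NI
open Pool.Agent.Helper16 (Place IsFunctionField)
open Pool.Agent.Helper36 (step iter iter_zero iter_succ iter_map)
open Pool.Agent.Helper38.TQ

variable {E : Type} [Field E] {κ : Subfield E} {N d : ℕ}

/-- A polynomial with coefficients in a subfield. -/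
theorem exists_lift {p : MvPolynomial (Fin (N + 1)) E} (h : ∀ m, p.coeff m ∈ κ) :
    ∃ P : MvPolynomial (Fin (N + 1)) κ, map (algebraMap κ E) P = p := by
  have h1 : p ∈ Set.range (map (σ := Fin (N + 1)) (algebraMap κ E)) := by
    rw [mem_range_map_iff_coeffs_subset]
    intro c hc
    rw [SetLike.mem_coe] at hc
    rw [mem_coeffs_iff] at hc
    obtain ⟨m, _, rfl⟩ := hc
    exact ⟨⟨_, h m⟩, rfl⟩
  exact h1

theorem stp_eq_step {φ : Fin (N + 1) → MvPolynomial (Fin (N + 1)) E}
    {F : Fin (N + 1) → MvPolynomial (Fin (N + 1)) κ} (hF : ∀ i, map (algebraMap κ E) (F i) = φ i)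
    (x : Fin (N + 1) → E) : stp φ x = step F x := by
  funext i
  change eval x (φ i) = aeval x (F i)
  rw [← hF i, eval_map, aeval_def]

theorem itr_eq_iter {φ : Fin (N + 1) → MvPolynomial (Fin (N + 1)) E}
    {F : Fin (N + 1) → MvPolynomial (Fin (N + 1)) κ} (hF : ∀ i, map (algebraMap κ E) (F i) = φ i)
    (x : Fin (N + 1) → E) (n : ℕ) : itr φ x n = iter F x n := by
  induction n with
  | zero => rfl
  | succ n ih => rw [itr_succ, iter_succ, ih, stp_eq_step hF]

/-- The lift of an endomorphism over a subfield. -/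
theorem Endo.exists_isEndo {φ : Fin (N + 1) → MvPolynomial (Fin (N + 1)) E} (hφ : Endo κ d φ) :
    ∃ F : Fin (N + 1) → MvPolynomial (Fin (N + 1)) κ,
      (∀ i, map (algebraMap κ E) (F i) = φ i) ∧ IsEndo d F := by
  choose F hF using fun i => exists_lift (hφ.coeff i)
  refine ⟨F, hF, hφ.two_le, fun i => ?_, fun x hx => ?_⟩
  · have h1 := hφ.hom i
    rw [← hF i] at h1
    exact h1.of_map (algebraMap κ E).injective
  · have h1 : (fun i => algebraMap κ E (x i)) = 0 := by
      apply hφ.nz
      intro i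
      rw [← hF i, eval_map]
      have h2 := hx i
      rw [← coe_aeval_eq_eval] at h2
      have h3 := congrArg (algebraMap κ E) h2
      rw [map_zero] at h3
      rw [← h3]
      have h4 := MvPolynomial.comp_aeval_apply x (IsScalarTower.toAlgHom κ κ E) (F i)
      exact h4.symm
    funext i
    have h2 := congrFun h1 i
    exact (map_eq_zero _).1 h2

variable [CharZero E]

/-- GE: growth of heights for maps over the constants, from the height bound RH. -/
theorem growth_of [IsAlgClosed κ]
    (hRH : ∀ K : IntermediateField κ E, IsFunctionField κ K → ∀ t : K, Transcendental κ t →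
      ∀ D : ℕ, ∃ B : ℤ, ∀ x : Fin (N + 1) → K, x ≠ 0 →
        (∀ i j, x j ≠ 0 → ∃ P : MvPolynomial (Fin 2) κ, P ≠ 0 ∧ P.totalDegree ≤ D ∧
          aeval ![t, x i / x j] P = 0) → Pool.Agent.Helper38.TQ.ht κ x ≤ B)
    {θ : E}
    (hθ : θ ∉ κ) {φ : Fin (N + 1) → MvPolynomial (Fin (N + 1)) E} (hφ : Endo κ d φ)
    {ζ : Fin (N + 1) → E} (hζ : ζ ≠ 0) (hlow : Low κ θ φ ζ) :
    ∃ c : E, c ≠ 0 ∧ ∀ i, c * ζ i ∈ κ := by
  classical
  obtain ⟨F, hF, hE⟩ := Endo.exists_isEndo hφ
  obtain ⟨D, hD⟩ := hlow
  obtain ⟨i₀, hi₀⟩ : ∃ i, ζ i ≠ 0 := by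
    by_contra hcon
    push Not at hcon
    exact hζ (funext hcon)
  have hθ' : θ ∉ acl (κ : Set E) := by rwa [acl_eq_self]
  set s : Set E := Set.range fun i => ζ i / ζ i₀ with hs
  have hsf : s.Finite := Set.finite_range _
  have hsa : ∀ c ∈ s, c ∈ acl (insert θ (κ : Set E)) := by
    rintro _ ⟨i, rfl⟩
    exact (hD 0 i i₀ hi₀).mem_acl hθ'
  have hK : IsFunctionField κ (IntermediateField.adjoin κ (insert θ s)) :=
    exists_functionField hθ hsf hsa
  set K := IntermediateField.adjoin κ (insert θ s) with hKdef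
  let θ' : K := ⟨θ, IntermediateField.subset_adjoin κ _ (Set.mem_insert _ _)⟩
  have hθt : Transcendental κ θ' := by
    intro h
    exact transcendental_of_notMem hθ (IsAlgebraic.algHom K.val h)
  let x : Fin (N + 1) → K := fun i =>
    ⟨ζ i / ζ i₀, IntermediateField.subset_adjoin κ _ (Set.mem_insert_of_mem _ ⟨i, rfl⟩)⟩
  have hx0 : x ≠ 0 := by
    intro h
    have h1 := congrArg (fun c : K => (c : E)) (congrFun h i₀)
    change ζ i₀ / ζ i₀ = 0 at h1
    rw [div_self hi₀] at h1
    exact one_ne_zero h1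
  -- the iterates
  have hζx : ζ = ζ i₀ • fun i => ((x i : K) : E) := by
    funext i
    rw [Pi.smul_apply, smul_eq_mul]
    change ζ i = ζ i₀ * (ζ i / ζ i₀)
    rw [mul_div_cancel₀ _ hi₀]
  have hit : ∀ n, itr φ ζ n = ζ i₀ ^ d ^ n • fun i => ((iter F x n i : K) : E) := by
    intro n
    rw [itr_eq_iter hF]
    conv_lhs => rw [hζx]
    rw [iter_smul hE]
    congr 1
    exact iter_map F K.val x n
  obtain ⟨B, hB⟩ := hRH K hK θ' hθt D
  have hcon : IsConst κ x := by
    by_contra hnc
    have h1 := ht_iter_large hK hE hx0 hnc B.toNat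
    have h2 : ht κ (iter F x B.toNat) ≤ B := by
      apply hB
      · intro h0
        rw [h0] at h1
        have h3 : ht κ (0 : Fin (N + 1) → K) = 0 := by
          unfold ht
          refine finsum_eq_zero_of_forall_eq_zero fun b => ?_
          have h4 : nrm b (0 : Fin (N + 1) → K) = 0 := by
            unfold nrm
            simp
          rw [h4]
          exact WithZero.log_zero
        rw [h3] at h1
        have h5 : (0 : ℤ) ≤ (B.toNat : ℤ) := Int.natCast_nonneg _
        omega
      · intro i j hj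
        have h3 : itr φ ζ B.toNat j ≠ 0 := by
          rw [hit, Pi.smul_apply, smul_eq_mul]
          refine mul_ne_zero (pow_ne_zero _ hi₀) ?_
          intro h4
          exact hj (Subtype.ext h4)
        obtain ⟨P, hP0, hPD, hP⟩ := hD B.toNat i j h3
        refine ⟨P, hP0, hPD, ?_⟩
        have h4 : itr φ ζ B.toNat i / itr φ ζ B.toNat j =
            ((iter F x B.toNat i / iter F x B.toNat j : K) : E) := by
          rw [hit, Pi.smul_apply, Pi.smul_apply, smul_eq_mul, smul_eq_mul,
            mul_div_mul_left _ _ (pow_ne_zero _ hi₀)]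
          rfl
        rw [h4] at hP
        have h5 : K.val (aeval ![θ', iter F x B.toNat i / iter F x B.toNat j] P) =
            aeval ![θ, ((iter F x B.toNat i / iter F x B.toNat j : K) : E)] P := by
          have h6 := MvPolynomial.comp_aeval_apply
            ![θ', iter F x B.toNat i / iter F x B.toNat j] K.val P
          rw [h6]
          congr 2
          funext l
          fin_cases l
          · rfl
          · rfl
        rw [hP] at h5
        exact (map_eq_zero K.val).1 h5
    have h3 : B ≤ (B.toNat : ℤ) := Int.self_le_toNat B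
    omega
  obtain ⟨z, c, hc, hxz⟩ := hcon
  refine ⟨(ζ i₀ * (c : E))⁻¹, inv_ne_zero (mul_ne_zero hi₀ fun h => hc (Subtype.ext h)),
    fun i => ?_⟩
  have h1 : ζ i = ζ i₀ * ((c : E) * (z i : E)) := by
    have h2 := congrFun hζx i
    rw [Pi.smul_apply, smul_eq_mul] at h2
    rw [h2]
    congr 1
    have h3 := congrArg (fun c : K => (c : E)) (congrFun hxz i)
    exact h3
  have h2 : (ζ i₀ * (c : E))⁻¹ * ζ i = (z i : E) := by
    rw [h1, ← mul_assoc (ζ i₀) (c : E) (z i : E),
      inv_mul_cancel_left₀ (mul_ne_zero hi₀ fun h => hc (Subtype.ext h))]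
  rw [h2]
  exact (z i).2

end Pool.Agent.Helper74.NI
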