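import Pool.Agent.Helper29.MF.T46

/-!
# Relations of bounded degree give bounded height
-/

set_option autoImplicit false

namespace Pool.Agent.Helper74.NI

open MvPolynomial
open Pool.Agent.Helper16 (Place IsFunctionField)
open Pool.Agent.Helper38.TQ
open Pool.Agent.Helper38.TQK
open Pool.Agent.Helper30.TKN

variable {ν : ℕ} {k K : Type} [Field k] [Field K] [Algebra k K]

/-- The coefficient of `Y^l` in `P(t, Y)`. -/
noncomputable def cf (P : MvPolynomial (Fin 2) k) (t : K) (l : ℕ) : K :=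
  ∑ m ∈ P.support with m 1 = l, algebraMap k K (P.coeff m) * t ^ m 0

theorem aeval_eq_sum_cf (P : MvPolynomial (Fin 2) k) (t u : K) {J : ℕ}
    (hJ : ∀ m ∈ P.support, m 1 ≤ J) :
    aeval ![t, u] P = ∑ l ∈ Finset.range (J + 1), cf P t l * u ^ l := by
  classical
  rw [aeval_def, eval₂_eq', ← Finset.sum_fiberwise_of_maps_to (s := P.support)
    (t := Finset.range (J + 1)) (g := fun m => m 1)
    (fun m hm => Finset.mem_range.2 (Nat.lt_succ_of_le (hJ m hm)))]
  refine Finset.sum_congr rfl fun l _ => ?_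
  rw [cf, Finset.sum_mul]
  refine Finset.sum_congr rfl fun m hm => ?_
  rw [Fin.prod_univ_two, ← (Finset.mem_filter.1 hm).2]
  simp [mul_assoc]

theorem cf_ne_zero {P : MvPolynomial (Fin 2) k} {t : K} (ht : Transcendental k t)
    {m₀ : Fin 2 →₀ ℕ} (hm₀ : m₀ ∈ P.support) : cf P t (m₀ 1) ≠ 0 := by
  classical
  set f : Polynomial k := ∑ m ∈ P.support with m 1 = m₀ 1,
    Polynomial.C (P.coeff m) * Polynomial.X ^ m 0 with hf
  have h1 : Polynomial.aeval t f = cf P t (m₀ 1) := by
    rw [hf, map_sum, cf]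
    refine Finset.sum_congr rfl fun m _ => ?_
    rw [map_mul, map_pow, Polynomial.aeval_C, Polynomial.aeval_X]
  have h2 : f.coeff (m₀ 0) = P.coeff m₀ := by
    rw [hf, Polynomial.finsetSum_coeff, Finset.sum_eq_single m₀]
    · rw [Polynomial.coeff_C_mul_X_pow, if_pos rfl]
    · intro m hm hne
      rw [Polynomial.coeff_C_mul_X_pow, if_neg]
      intro h
      apply hne
      ext i
      fin_cases i
      · exact h.symm
      · exact (Finset.mem_filter.1 hm).2
    · intro h
      exact absurd (Finset.mem_filter.2 (⟨hm₀, rfl⟩ : m₀ ∈ P.support ∧ m₀ 1 = m₀ 1)) h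
  intro h
  rw [← h1] at h
  have h3 : f = 0 := (transcendental_iff.1 ht) f h
  rw [h3, Polynomial.coeff_zero] at h2
  exact (mem_support_iff.1 hm₀) h2.symm

theorem one_le_pair (b : Place k K) (u : K) : 1 ≤ nrm b ![1, u] := by
  have := val_le_nrm b ![1, u] 0
  simpa using this

theorem val_le_pair (b : Place k K) (u : K) : b.val u ≤ nrm b ![1, u] := by
  have := val_le_nrm b ![1, u] 1
  simpa using this

theorem val_cf_le (b : Place k K) (P : MvPolynomial (Fin 2) k) (t : K) {D : ℕ}
    (hD : P.totalDegree ≤ D) (l : ℕ) : b.val (cf P t l) ≤ nrm b ![1, t] ^ D := by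
  classical
  rw [cf]
  refine b.val.map_sum_le fun m hm => ?_
  rw [map_mul, map_pow]
  have h1 : b.val (algebraMap k K (coeff m P)) ≤ 1 := b.val_algebraMap_le _
  have h2 : m 0 ≤ D := by
    refine le_trans ?_ hD
    refine le_trans ?_ (le_totalDegree (Finset.mem_filter.1 hm).1)
    rw [Finsupp.sum_fintype _ _ (fun _ => rfl)]
    exact Finset.single_le_sum (f := fun i => m i) (fun _ _ => Nat.zero_le _) (Finset.mem_univ _)
  calc b.val (algebraMap k K (coeff m P)) * b.val t ^ m 0
      ≤ 1 * nrm b ![1, t] ^ m 0 := mul_le_mul' h1 (pow_le_pow_left' (val_le_pair b t) _)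
    _ = nrm b ![1, t] ^ m 0 := one_mul _
    _ ≤ nrm b ![1, t] ^ D := pow_le_pow_right' (one_le_pair b t) h2

theorem exists_lead {P : MvPolynomial (Fin 2) k} (hP : P ≠ 0) :
    ∃ m₀ ∈ P.support, ∀ m ∈ P.support, m 1 ≤ m₀ 1 :=
  Finset.exists_max_image P.support (fun m => m 1) (support_nonempty.2 hP)

theorem local_bound {P : MvPolynomial (Fin 2) k} {t u : K} (ht : Transcendental k t)
    {D : ℕ} (hD : P.totalDegree ≤ D) (hPu : aeval ![t, u] P = 0) {m₀ : Fin 2 →₀ ℕ}
    (hm₀ : m₀ ∈ P.support) (hJ : ∀ m ∈ P.support, m 1 ≤ m₀ 1) (b : Place k K) :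
    b.val (cf P t (m₀ 1)) * nrm b ![1, u] ≤ nrm b ![1, t] ^ D := by
  classical
  set J := m₀ 1 with hJdef
  set N := nrm b ![1, t] ^ D with hN
  have hcf : cf P t J ≠ 0 := cf_ne_zero ht hm₀
  have hcf' : b.val (cf P t J) ≠ 0 := (Valuation.ne_zero_iff _).2 hcf
  rcases le_or_gt (b.val u) 1 with hu | hu
  · have h1 : nrm b ![1, u] ≤ 1 := by
      refine nrm_le fun i => ?_
      fin_cases i
      · simp
      · simpa using hu
    calc _ ≤ b.val (cf P t J) * 1 := mul_le_mul' le_rfl h1
      _ = b.val (cf P t J) := mul_one _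
      _ ≤ N := val_cf_le b P t hD J
  · have h1 : nrm b ![1, u] ≤ b.val u := by
      refine nrm_le fun i => ?_
      fin_cases i
      · simpa using hu.le
      · simp
    refine (mul_le_mul' le_rfl h1).trans ?_
    by_contra hcon
    rw [not_le] at hcon
    rw [aeval_eq_sum_cf P t u hJ, Finset.sum_range_succ] at hPu
    have hu0 : b.val u ≠ 0 := (lt_trans zero_lt_one hu).ne'
    rcases Nat.eq_zero_or_pos J with h0 | h0
    · rw [h0, Finset.range_zero, Finset.sum_empty, zero_add, pow_zero, mul_one] at hPu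
      rw [h0] at hcf
      exact hcf hPu
    · have h2 : b.val (∑ l ∈ Finset.range J, cf P t l * u ^ l) < b.val (cf P t J * u ^ J) := by
        refine Valuation.map_sum_lt _ ?_ fun l hl => ?_
        · rw [map_mul, map_pow]
          exact mul_ne_zero hcf' (pow_ne_zero _ hu0)
        · rw [Finset.mem_range] at hl
          obtain ⟨J', hJ'⟩ : ∃ J', J = J' + 1 := ⟨J - 1, by omega⟩
          calc b.val (cf P t l * u ^ l) = b.val (cf P t l) * b.val u ^ l := by
                rw [map_mul, map_pow]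
            _ ≤ N * b.val u ^ J' :=
                mul_le_mul' (val_cf_le b P t hD l) (pow_le_pow_right' hu.le (by omega))
            _ < b.val (cf P t J) * b.val u * b.val u ^ J' :=
                mul_lt_mul_of_pos_right hcon (zero_lt_iff.2 (pow_ne_zero _ hu0))
            _ = b.val (cf P t J * u ^ J) := by
                have h4 : b.val u ^ J = b.val u * b.val u ^ J' := by rw [hJ', pow_succ']
                rw [map_mul, map_pow, h4, mul_assoc]
      have h3 : ∑ l ∈ Finset.range J, cf P t l * u ^ l = -(cf P t J * u ^ J) :=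
        eq_neg_of_add_eq_zero_left hPu
      rw [h3, Valuation.map_neg] at h2
      exact lt_irrefl _ h2

theorem ht_pair_le_of_rel [IsAlgClosed k] (hK : IsFunctionField k K) {t u : K}
    (ht0 : Transcendental k t)
    {P : MvPolynomial (Fin 2) k} (hP : P ≠ 0) {D : ℕ} (hD : P.totalDegree ≤ D)
    (hPu : aeval ![t, u] P = 0) : ht k ![1, u] ≤ D * ht k ![1, t] := by
  obtain ⟨m₀, hm₀, hJ⟩ := exists_lead hP
  have hcf : cf P t (m₀ 1) ≠ 0 := cf_ne_zero ht0 hm₀
  obtain ⟨h1, h2⟩ := finsum_log hK _ hcf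
  have h3 := nrm_support hK ![1, u] (pair_ne_zero u)
  have h4 := nrm_support hK ![1, t] (pair_ne_zero t)
  have h5 : ht k ![1, u] = ∑ᶠ b : Place k K,
      (WithZero.log (b.val (cf P t (m₀ 1))) + WithZero.log (nrm b ![1, u])) := by
    rw [finsum_add_distrib h1 h3, h2, zero_add]
    rfl
  rw [h5]
  unfold ht
  rw [mul_finsum]
  refine finsum_le_finsum' ?_ ?_ fun b => ?_
  · exact (h1.union h3).subset (Function.support_add _ _)
  · refine h4.subset fun b hb hb' => hb ?_
    have h6 : WithZero.log (nrm b ![1, t]) = 0 := hb'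
    change (D : ℤ) * WithZero.log (nrm b ![1, t]) = 0
    rw [h6, mul_zero]
  · have h6 := local_bound ht0 hD hPu hm₀ hJ b
    have h7 : b.val (cf P t (m₀ 1)) ≠ 0 := (Valuation.ne_zero_iff _).2 hcf
    have h8 := nrm_ne_zero (b := b) (pair_ne_zero u)
    have h9 := nrm_ne_zero (b := b) (pair_ne_zero t)
    rw [← WithZero.log_mul h7 h8]
    have h10 : (D : ℤ) * WithZero.log (nrm b ![1, t]) = WithZero.log (nrm b ![1, t] ^ D) := by
      rw [WithZero.log_pow]
      simp
    rw [h10, WithZero.log_le_log (mul_ne_zero h7 h8) (pow_ne_zero _ h9)]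
    exact h6

theorem ht_le_sum [IsAlgClosed k] (hK : IsFunctionField k K) {x : Fin (ν + 1) → K}
    {j : Fin (ν + 1)} (hj : x j ≠ 0) : ht k x ≤ ∑ i, ht k ![1, x i / x j] := by
  have hx : x ≠ 0 := fun h => hj (by rw [h]; rfl)
  have hy : (x j)⁻¹ • x ≠ 0 := smul_ne_zero (inv_ne_zero hj) hx
  rw [← ht_smul hK (inv_ne_zero hj) hx]
  have hs : ∀ i : Fin (ν + 1),
      (Function.support fun b : Place k K => WithZero.log (nrm b ![1, x i / x j])).Finite :=
    fun i => nrm_support hK _ (pair_ne_zero _)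
  have h1 : ∑ i, ht k ![1, x i / x j] =
      ∑ᶠ b : Place k K, ∑ i, WithZero.log (nrm b ![1, x i / x j]) := by
    rw [finsum_sum_comm]
    · rfl
    · exact fun i _ => hs i
  rw [h1]
  unfold ht
  refine finsum_le_finsum' (nrm_support hK _ hy) ?_ fun b => ?_
  · refine (Set.finite_iUnion hs).subset fun b hb => ?_
    by_contra h
    apply hb
    change ∑ i, WithZero.log (nrm b ![1, x i / x j]) = 0
    refine Finset.sum_eq_zero fun i _ => ?_
    by_contra h'
    exact h (Set.mem_iUnion.2 ⟨i, h'⟩)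
  · obtain ⟨i, hi⟩ := exists_val_eq_nrm b ((x j)⁻¹ • x)
    have h2 : nrm b ((x j)⁻¹ • x) ≤ nrm b ![1, x i / x j] := by
      rw [← hi, Pi.smul_apply, smul_eq_mul, mul_comm, ← div_eq_mul_inv]
      exact val_le_pair b _
    have h3 : WithZero.log (nrm b ((x j)⁻¹ • x)) ≤ WithZero.log (nrm b ![1, x i / x j]) := by
      rw [WithZero.log_le_log (nrm_ne_zero hy) (nrm_ne_zero (pair_ne_zero _))]
      exact h2
    refine h3.trans ?_
    exact Finset.single_le_sum (f := fun i => WithZero.log (nrm b ![1, x i / x j]))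
      (fun i _ => log_nrm_pair_nonneg b _) (Finset.mem_univ i)

/-- RH: relations of bounded degree give bounded height. -/
theorem ht_le_of_rel [IsAlgClosed k] (hK : IsFunctionField k K) {t : K}
    (ht0 : Transcendental k t) (D : ℕ) :
    ∃ B : ℤ, ∀ x : Fin (ν + 1) → K, x ≠ 0 →
      (∀ i j, x j ≠ 0 → ∃ P : MvPolynomial (Fin 2) k, P ≠ 0 ∧ P.totalDegree ≤ D ∧
        aeval ![t, x i / x j] P = 0) → Pool.Agent.Helper38.TQ.ht k x ≤ B := by
  refine ⟨∑ _i : Fin (ν + 1), D * ht k ![1, t], fun x hx h => ?_⟩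
  obtain ⟨j, hj⟩ : ∃ j, x j ≠ 0 := by
    by_contra hcon
    push Not at hcon
    exact hx (funext hcon)
  refine (ht_le_sum hK hj).trans (Finset.sum_le_sum fun i _ => ?_)
  obtain ⟨P, hP, hPD, hPu⟩ := h i j hj
  exact ht_pair_le_of_rel hK ht0 hP hPD hPu

end Pool.Agent.Helper74.NI
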