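import Pool.Agent.Helper74.NI.Growth
import Pool.Agent.Helper74.NI.RelHt

/-!
# Growth of heights for maps over the constants
-/

set_option autoImplicit false

namespace Pool.Agent.Helper74.NI

open MvPolynomial
open Pool.Agent.Helper72.NI
open Pool.Agent.Helper16 (Place IsFunctionField)
open Pool.Agent.Helper36 (iter)
open Pool.Agent.Helper38.TQ

/-- GL: orbits whose coordinates satisfy relations of bounded degree are constant. -/
theorem isConst_of_rel {ν : ℕ} {k K : Type} [Field k] [IsAlgClosed k] [Field K] [Algebra k K]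
    (hK : IsFunctionField k K) {t : K} (ht0 : Transcendental k t) {d : ℕ}
    {F : Fin (ν + 1) → MvPolynomial (Fin (ν + 1)) k} (hF : IsEndo d F)
    {z : Fin (ν + 1) → K} (hz : z ≠ 0) {D : ℕ}
    (h : ∀ n i j, iter F z n j ≠ 0 → ∃ P : MvPolynomial (Fin 2) k, P ≠ 0 ∧ P.totalDegree ≤ D ∧
      aeval ![t, iter F z n i / iter F z n j] P = 0) : IsConst k z := by
  obtain ⟨B, hB⟩ := ht_le_of_rel (ν := ν) hK ht0 D
  by_contra hnc
  have h1 := ht_iter_large hK hF hz hnc B.toNat
  have h2 : Pool.Agent.Helper38.TQ.ht k (iter F z B.toNat) ≤ B := by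
    apply hB
    · intro h0
      rw [h0] at h1
      have h3 : Pool.Agent.Helper38.TQ.ht k (0 : Fin (ν + 1) → K) = 0 := by
        unfold Pool.Agent.Helper38.TQ.ht
        refine finsum_eq_zero_of_forall_eq_zero fun b => ?_
        rw [nrm_zero]
        exact WithZero.log_zero
      rw [h3] at h1
      have h5 : (0 : ℤ) ≤ (B.toNat : ℤ) := Int.natCast_nonneg _
      omega
    · exact fun i j => h B.toNat i j
  have h3 : B ≤ (B.toNat : ℤ) := Int.self_le_toNat B
  omega

/-- GE: growth of heights for maps over the constants. -/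
theorem growth {E : Type} [Field E] [CharZero E] {κ : Subfield E} [IsAlgClosed κ] {θ : E}
    (hθ : θ ∉ κ) {N d : ℕ} {φ : Fin (N + 1) → MvPolynomial (Fin (N + 1)) E} (hφ : Endo κ d φ)
    {ζ : Fin (N + 1) → E} (hζ : ζ ≠ 0) (hlow : Low κ θ φ ζ) :
    ∃ c : E, c ≠ 0 ∧ ∀ i, c * ζ i ∈ κ :=
  growth_of (fun _ hK _ ht0 D => ht_le_of_rel hK ht0 D) hθ hφ hζ hlow

end Pool.Agent.Helper74.NI
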