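import Pool.Agent.Helper72.NI.Cong

/-!
# Roots near a root of the reduction
-/

set_option autoImplicit false

namespace Pool.Agent.Helper74.NI

open Pool.Agent.Helper72.NI

section

variable {E : Type} [Field E] {Γ : Type} [LinearOrderedCommGroupWithZero Γ] {v : Valuation E Γ}

/-- The coefficients of a product of linear factors whose roots are not near `l₀`. -/
theorem val_coeff_prod_le {l₀ : E} (hl₀ : v l₀ ≤ 1) (S : Multiset E)
    (hS : ∀ r ∈ S, 1 ≤ v (l₀ - r)) (n : ℕ) :
    v ((S.map fun r => Polynomial.X - Polynomial.C r).prod.coeff n) ≤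
      v ((S.map fun r => Polynomial.X - Polynomial.C r).prod.eval l₀) := by
  induction S using Multiset.induction_on generalizing n with
  | empty =>
    rw [Multiset.map_zero, Multiset.prod_zero, Polynomial.eval_one, Polynomial.coeff_one, map_one]
    split_ifs
    · rw [map_one]
    · rw [map_zero]
      exact zero_le
  | cons r S ih =>
    have hr : 1 ≤ v (l₀ - r) := hS r (Multiset.mem_cons_self r S)
    have ih' := ih fun r' hr' => hS r' (Multiset.mem_cons_of_mem hr')
    set P := (S.map fun r => Polynomial.X - Polynomial.C r).prod with hP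
    rw [Multiset.map_cons, Multiset.prod_cons, ← hP, Polynomial.eval_mul, Polynomial.eval_sub,
      Polynomial.eval_X, Polynomial.eval_C, map_mul]
    have hvr : v r ≤ v (l₀ - r) := by
      have h1 : r = l₀ - (l₀ - r) := by ring
      calc v r = v (l₀ - (l₀ - r)) := by rw [← h1]
        _ ≤ max (v l₀) (v (l₀ - r)) := Valuation.map_sub v _ _
        _ ≤ v (l₀ - r) := max_le (hl₀.trans hr) le_rfl
    have h2 : ∀ m, v (r * P.coeff m) ≤ v (l₀ - r) * v (P.eval l₀) := fun m => by
      rw [map_mul]
      exact mul_le_mul' hvr (ih' m)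
    cases n with
    | zero =>
      have h1 : ((Polynomial.X - Polynomial.C r) * P).coeff 0 = -(r * P.coeff 0) := by
        rw [Polynomial.mul_coeff_zero, Polynomial.coeff_sub, Polynomial.coeff_X_zero,
          Polynomial.coeff_C_zero]
        ring
      rw [h1, Valuation.map_neg]
      exact h2 0
    | succ n =>
      have h1 : ((Polynomial.X - Polynomial.C r) * P).coeff (n + 1) =
          P.coeff n - r * P.coeff (n + 1) := by
        rw [sub_mul, Polynomial.coeff_sub, Polynomial.coeff_X_mul, Polynomial.coeff_C_mul]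
      rw [h1]
      refine (Valuation.map_sub v _ _).trans (max_le ?_ (h2 _))
      calc v (P.coeff n) = 1 * v (P.coeff n) := (one_mul _).symm
        _ ≤ v (l₀ - r) * v (P.eval l₀) := mul_le_mul' hr (ih' n)

/-- LIN-c. -/
theorem exists_root_near [IsAlgClosed E] {h h' : Polynomial E}
    (hcg : ∀ n, Cg v (h.coeff n) (h'.coeff n)) (hne : ∃ n, v (h'.coeff n) = 1) {l₀ : E}
    (hl₀ : v l₀ ≤ 1) (hroot : h'.eval l₀ = 0) : ∃ l₁, v (l₁ - l₀) < 1 ∧ h.eval l₁ = 0 := by
  classical
  by_contra hcon
  push Not at hcon
  obtain ⟨n₀, hn₀⟩ := hne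
  have hn₁ : v (h.coeff n₀) = 1 := (hcg n₀).val hn₀
  have h0 : h ≠ 0 := by
    rintro rfl
    rw [Polynomial.coeff_zero, map_zero] at hn₁
    exact zero_ne_one hn₁
  have heval : v (h.eval l₀) < 1 := by
    have h1 : h.eval l₀ = (h - h').eval l₀ := by
      rw [Polynomial.eval_sub, hroot, sub_zero]
    rw [h1, Polynomial.eval_eq_sum_range]
    refine Valuation.map_sum_lt _ one_ne_zero fun n _ => ?_
    rw [map_mul, map_pow, Polynomial.coeff_sub]
    calc v (h.coeff n - h'.coeff n) * v l₀ ^ n ≤ v (h.coeff n - h'.coeff n) * 1 :=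
          mul_le_mul' le_rfl (pow_le_one' hl₀ n)
      _ = v (h.coeff n - h'.coeff n) := mul_one _
      _ < 1 := (hcg n).lt
  have hfar : ∀ r ∈ h.roots, 1 ≤ v (l₀ - r) := by
    intro r hr
    by_contra hlt
    rw [not_le, Valuation.map_sub_swap] at hlt
    exact hcon r hlt (Polynomial.isRoot_of_mem_roots hr)
  have hprod := (IsAlgClosed.splits h).eq_prod_roots
  set P := (h.roots.map fun r => Polynomial.X - Polynomial.C r).prod with hP
  have h1 : h.coeff n₀ = h.leadingCoeff * P.coeff n₀ := by
    conv_lhs => rw [hprod]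
    rw [Polynomial.coeff_C_mul]
  have h2 : h.eval l₀ = h.leadingCoeff * P.eval l₀ := by
    conv_lhs => rw [hprod]
    rw [Polynomial.eval_mul, Polynomial.eval_C]
  have h3 : v (h.coeff n₀) ≤ v (h.eval l₀) := by
    rw [h1, h2, map_mul, map_mul]
    exact mul_le_mul' le_rfl (val_coeff_prod_le hl₀ _ hfar n₀)
  rw [hn₁] at h3
  exact absurd heval (not_lt.2 h3)

/-- LIN-4. Lifting of roots. -/
theorem exists_root_near' [IsAlgClosed E] {Ω : Subfield E} (hΩ : ∀ b ∈ Ω, v b ≤ 1)
    {h g : Polynomial E} (hg : ∀ n, g.coeff n ∈ Ω) (hhg : ∀ n, Cg v (h.coeff n) (g.coeff n))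
    (hg0 : g ≠ 0) {l₀ : E} (hl₀ : l₀ ∈ Ω) (hgl : g.eval l₀ = 0) :
    ∃ l₁, h.eval l₁ = 0 ∧ v (l₁ - l₀) < 1 := by
  obtain ⟨l₁, h1, h2⟩ := exists_root_near hhg
    ⟨g.natDegree, val_one_of_mem hΩ (hg _) (Polynomial.leadingCoeff_ne_zero.2 hg0)⟩
    (hΩ _ hl₀) hgl
  exact ⟨l₁, h2, h1⟩

end

section

open MvPolynomial

variable {E : Type} [Field E] {N : ℕ} {K : Subfield E}

/-- The coordinates of a generic point are linearly independent. -/
theorem Gen.sum_ne_zero {x : Fin (N + 1) → E} (hgx : Gen K x) {w : Fin (N + 1) → E}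
    (hw : ∀ i, w i ∈ K) (hw0 : w ≠ 0) : ∑ i, w i * x i ≠ 0 := by
  classical
  have h1 : (∑ i, C (w i) * X i : MvPolynomial (Fin (N + 1)) E).IsHomogeneous 1 := by
    refine IsHomogeneous.sum _ _ _ fun i _ => ?_
    have := (isHomogeneous_C (Fin (N + 1)) (w i)).mul (isHomogeneous_X E i)
    rwa [zero_add] at this
  have h2 : ∀ m, (∑ i, C (w i) * X i : MvPolynomial (Fin (N + 1)) E).coeff m =
      ∑ i, if Finsupp.single i 1 = m then w i else 0 := by
    intro m
    rw [coeff_sum]
    refine Finset.sum_congr rfl fun i _ => ?_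
    rw [coeff_C_mul, coeff_X]
    split_ifs
    · rw [mul_one]
    · rw [mul_zero]
  have h3 := hgx 1 _ h1 (fun m => by
    rw [h2]
    refine sum_mem fun i _ => ?_
    split_ifs
    · exact hw i
    · exact zero_mem _) (by
    intro h
    apply hw0
    funext j
    have h4 := h2 (Finsupp.single j 1)
    rw [h, coeff_zero, Finset.sum_eq_single j] at h4
    · rw [if_pos rfl] at h4
      exact h4.symm
    · intro i _ hij
      rw [if_neg]
      intro h5
      exact hij (Finsupp.single_left_injective one_ne_zero h5)
    · intro h5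
      exact absurd (Finset.mem_univ _) h5)
  rw [map_sum] at h3
  simpa only [map_mul, eval_C, eval_X] using h3

/-- LIN-2. Degree at most one. -/
theorem linear_of_le_one (hN : 1 ≤ N) {x y : Fin (N + 1) → E}
    {i₀ : Fin (N + 1)} (hx1 : x i₀ = 1) (hgx : Gen K x) {a : ℕ} (ha : a ≤ 1)
    {X : Fin (N + 1) → MvPolynomial (Fin (N + 1)) K} {b : E}
    (hX : ∀ i, (X i).IsHomogeneous a) (hb : b ≠ 0) (hXy : ∀ i, aeval y (X i) = b * x i) :
    ∃ (g : Matrix (Fin (N + 1)) (Fin (N + 1)) E) (b : E), (∀ i j, g i j ∈ K) ∧ g.det ≠ 0 ∧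
      b ≠ 0 ∧ x = b • g.mulVec y := by
  classical
  obtain ⟨j₀, hj₀⟩ : ∃ j₀ : Fin (N + 1), j₀ ≠ i₀ := by
    have : Nontrivial (Fin (N + 1)) := Fin.nontrivial_iff_two_le.2 (by omega)
    exact exists_ne i₀
  rcases Nat.le_one_iff_eq_zero_or_eq_one.1 ha with rfl | rfl
  · exfalso
    have h1 : ∀ i, b * x i ∈ K := by
      intro i
      have h2 : (X i).totalDegree = 0 := Nat.le_zero.1 (hX i).totalDegree_le
      rw [← hXy i, totalDegree_eq_zero_iff_eq_C.1 h2, aeval_C]
      exact (coeff 0 (X i)).2
    have hbK : b ∈ K := by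
      have := h1 i₀
      rwa [hx1, mul_one] at this
    refine Gen.sum_ne_zero hgx (w := fun i => if i = i₀ then b * x j₀ else if i = j₀ then -b else 0)
      (fun i => ?_) ?_ ?_
    · split_ifs
      · exact h1 j₀
      · exact neg_mem hbK
      · exact zero_mem _
    · intro h
      have h2 := congrFun h j₀
      simp only [if_neg hj₀, if_true, Pi.zero_apply, neg_eq_zero] at h2
      exact hb h2
    · rw [← Finset.add_sum_erase _ _ (Finset.mem_univ i₀),
        ← Finset.add_sum_erase _ _ (Finset.mem_erase.2 ⟨hj₀, Finset.mem_univ j₀⟩),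
        Finset.sum_eq_zero]
      · rw [if_pos rfl, if_neg hj₀, if_pos rfl, hx1]
        ring
      · intro i hi
        rw [Finset.mem_erase, Finset.mem_erase] at hi
        rw [if_neg hi.2.1, if_neg hi.1, zero_mul]
  · set gK : Matrix (Fin (N + 1)) (Fin (N + 1)) K := Matrix.of fun i j =>
      (X i).coeff (Finsupp.single j 1) with hgK
    have hlin : ∀ i, X i = ∑ j, C (gK i j) * MvPolynomial.X j := by
      intro i
      ext1 m
      rw [coeff_sum]
      have h2 : ∀ j, (C (gK i j) * MvPolynomial.X j : MvPolynomial (Fin (N + 1)) K).coeff m =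
          if Finsupp.single j 1 = m then (X i).coeff m else 0 := by
        intro j
        rw [coeff_C_mul, coeff_X]
        split_ifs with h
        · rw [mul_one, ← h]
          rfl
        · rw [mul_zero]
      rw [Finset.sum_congr rfl fun j _ => h2 j]
      by_cases hm : (X i).coeff m = 0
      · rw [hm]
        symm
        refine Finset.sum_eq_zero fun j _ => ?_
        split_ifs <;> rfl
      · have h3 := hX i hm
        obtain ⟨j, rfl⟩ : ∃ j, m = Finsupp.single j 1 := by
          have h4 : m.degree = 1 := by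
            refine Eq.trans ?_ h3
            rw [Finsupp.weight_apply, Finsupp.degree_apply]
            exact (Finset.sum_congr rfl fun i _ => by simp)
          have hm0 : m ≠ 0 := by
            rintro rfl
            rw [map_zero] at h4
            exact zero_ne_one h4
          obtain ⟨j, hj⟩ := Finsupp.ne_iff.1 hm0
          refine ⟨j, ?_⟩
          have hj' : 1 ≤ m j := Nat.one_le_iff_ne_zero.2 hj
          have hle : Finsupp.single j 1 ≤ m := Finsupp.single_le_iff.2 hj'
          have h5 : (m - Finsupp.single j 1).degree = 0 := by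
            have h6 : (m - Finsupp.single j 1 + Finsupp.single j 1).degree = m.degree := by
              rw [tsub_add_cancel_of_le hle]
            rw [map_add, h4] at h6
            have h7 : (Finsupp.single j 1 : Fin (N + 1) →₀ ℕ).degree = 1 := by simp
            omega
          have h8 : m - Finsupp.single j 1 = 0 := (Finsupp.degree_eq_zero_iff _).1 h5
          rw [← tsub_add_cancel_of_le hle, h8, zero_add]
        rw [Finset.sum_eq_single j]
        · rw [if_pos rfl]
        · intro l _ hl
          rw [if_neg]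
          intro h5
          exact hl (Finsupp.single_left_injective one_ne_zero h5)
        · intro h5
          exact absurd (Finset.mem_univ _) h5
    have hbx : ∀ i, b * x i = ∑ j, (gK i j : E) * y j := by
      intro i
      rw [← hXy i, hlin i, map_sum]
      refine Finset.sum_congr rfl fun j _ => ?_
      rw [map_mul, aeval_C, aeval_X]
      rfl
    have hdet : gK.det ≠ 0 := by
      intro h
      obtain ⟨w, hw0, hw⟩ := Matrix.exists_vecMul_eq_zero_iff.2 h
      refine Gen.sum_ne_zero hgx (w := fun i => (w i : E)) (fun i => (w i).2) ?_ ?_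
      · intro h1
        apply hw0
        funext i
        exact Subtype.ext (congrFun h1 i)
      · have h1 : b * ∑ i, (w i : E) * x i = 0 := by
          rw [Finset.mul_sum]
          calc ∑ i, b * ((w i : E) * x i) = ∑ i, ∑ j, ((w i * gK i j : K) : E) * y j := by
                refine Finset.sum_congr rfl fun i _ => ?_
                have h2 : b * ((w i : E) * x i) = (w i : E) * (b * x i) := by ring
                rw [h2, hbx i, Finset.mul_sum]
                refine Finset.sum_congr rfl fun j _ => ?_
                push_cast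
                ring
            _ = ∑ j, ((Matrix.vecMul w gK j : K) : E) * y j := by
                rw [Finset.sum_comm]
                refine Finset.sum_congr rfl fun j _ => ?_
                rw [← Finset.sum_mul]
                congr 1
                rw [Matrix.vecMul, dotProduct]
                push_cast
                rfl
            _ = 0 := by
                refine Finset.sum_eq_zero fun j _ => ?_
                rw [hw]
                exact zero_mul _
        exact (mul_eq_zero.1 h1).resolve_left hb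
    refine ⟨K.subtype.mapMatrix gK, b⁻¹, fun i j => (gK i j).2, ?_, inv_ne_zero hb, ?_⟩
    · rw [← RingHom.map_det]
      exact (map_ne_zero K.subtype).2 hdet
    · funext i
      have h1 := hbx i
      rw [Pi.smul_apply, smul_eq_mul, Matrix.mulVec, dotProduct]
      have h2 : ∑ j, (K.subtype.mapMatrix gK) i j * y j = ∑ j, (gK i j : E) * y j := rfl
      rw [h2, ← h1, inv_mul_cancel_left₀ hb]

end

end Pool.Agent.Helper74.NI
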